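import Pool.Agent.Helper10.BD.Goals

/-!
# Project BD, packet PHYS (helper66): the bounds of the physical hypersurface
-/

set_option autoImplicit false

open scoped ContDiff
open Real Filter Topology

namespace Pool.Agent.Helper66.BD.PHYS

open Pool.Agent.Helper50.BC (E)
open Pool.Agent.Helper10.BD

section calculus

variable {V : Type} [NormedAddCommGroup V] [NormedSpace ℝ V]

lemma app2 {F : V → ℝ} (hF : ContDiff ℝ ∞ F) (w η : V) :
    HasFDerivAt (fun w' => fderiv ℝ F w' η) ((fderiv ℝ (fderiv ℝ F) w).flip η) w := by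
  have h1 : ContDiff ℝ 1 (fderiv ℝ F) := hF.fderiv_right (m := 1) (by
    rw [one_add_one_eq_two]; exact WithTop.coe_le_coe.2 le_top)
  have h2 : HasFDerivAt (fderiv ℝ F) (fderiv ℝ (fderiv ℝ F) w) w :=
    (h1.differentiable one_ne_zero w).hasFDerivAt
  have h3 := h2.clm_apply (hasFDerivAt_const η w)
  simpa using h3

end calculus

section phys

variable {q r : ℕ} {P : E q → ℝ}

/-- the exponent -/
noncomputable def zz (r : ℕ) (P : E q → ℝ) (w : E q × E r) : ℝ := 27 / 10 * (P w.1 - QY w.2)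

lemma Phi_eq (w : E q × E r) : Phi r P w = 1 / 100 * (1 - exp (-(zz r P w))) := rfl

lemma hz (hP : ContDiff ℝ ∞ P) (hQ : ContDiff ℝ ∞ (QY (r := r))) (w : E q × E r) :
    HasFDerivAt (zz r P) ((27 / 10 : ℝ) • ((fderiv ℝ P w.1).comp (ContinuousLinearMap.fst ℝ _ _) -
      (fderiv ℝ (QY (r := r)) w.2).comp (ContinuousLinearMap.snd ℝ _ _))) w := by
  have h1 : HasFDerivAt P (fderiv ℝ P w.1) w.1 :=
    (hP.differentiable (by simp) w.1).hasFDerivAt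
  have h2 : HasFDerivAt (QY (r := r)) (fderiv ℝ (QY (r := r)) w.2) w.2 :=
    (hQ.differentiable (by simp) w.2).hasFDerivAt
  have h3 := (h1.comp w hasFDerivAt_fst).sub (h2.comp w hasFDerivAt_snd)
  exact h3.const_mul (27 / 10 : ℝ)

lemma D1 (hP : ContDiff ℝ ∞ P) (hQ : ContDiff ℝ ∞ (QY (r := r))) (w ξ : E q × E r) :
    fderiv ℝ (Phi r P) w ξ = exp (-(zz r P w)) / 100 *
      (27 / 10 * (fderiv ℝ P w.1 ξ.1 - fderiv ℝ (QY (r := r)) w.2 ξ.2)) := by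
  have h1 := (((hz hP hQ w).neg.exp).const_sub 1).const_mul (1 / 100 : ℝ)
  have h2 : HasFDerivAt (Phi r P) _ w := h1
  rw [h2.fderiv]
  simp
  ring

lemma D2 (hP : ContDiff ℝ ∞ P) (hQ : ContDiff ℝ ∞ (QY (r := r)))
    (hPhi : ContDiff ℝ ∞ (Phi r P)) (w ξ : E q × E r) :
    fderiv ℝ (fderiv ℝ (Phi r P)) w ξ ξ = exp (-(zz r P w)) / 100 *
      (27 / 10 * (fderiv ℝ (fderiv ℝ P) w.1 ξ.1 ξ.1 -
        fderiv ℝ (fderiv ℝ (QY (r := r))) w.2 ξ.2 ξ.2) -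
        (27 / 10 * (fderiv ℝ P w.1 ξ.1 - fderiv ℝ (QY (r := r)) w.2 ξ.2)) ^ 2) := by
  have h1 := app2 hPhi w ξ
  have h2 : (fun w' => fderiv ℝ (Phi r P) w' ξ) = fun w' => (1 / 100 * exp (-(zz r P w'))) *
      (27 / 10 * (fderiv ℝ P w'.1 ξ.1 - fderiv ℝ (QY (r := r)) w'.2 ξ.2)) := by
    funext w'
    rw [D1 hP hQ w' ξ]
    ring
  have h3 : HasFDerivAt (fun w' : E q × E r => 1 / 100 * exp (-(zz r P w'))) _ w :=
    ((hz hP hQ w).neg.exp).const_mul (1 / 100 : ℝ)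
  have h4 : HasFDerivAt (fun w' : E q × E r =>
      27 / 10 * (fderiv ℝ P w'.1 ξ.1 - fderiv ℝ (QY (r := r)) w'.2 ξ.2)) _ w :=
    (((app2 hP w.1 ξ.1).comp w hasFDerivAt_fst).sub
      ((app2 hQ w.2 ξ.2).comp w hasFDerivAt_snd)).const_mul (27 / 10 : ℝ)
  have h5 := h3.mul h4
  rw [h2] at h1
  have h6 := h1.unique h5
  have h7 := congrArg (fun φ => φ ξ) h6
  simp only [ContinuousLinearMap.flip_apply] at h7
  rw [h7]
  simp
  ring

end phys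

/-- the polynomial inequality of case C -/
lemma caseC {om : ℝ} (hB : om ≤ -(54 / 100)) (hC : -(88 / 100) ≤ om) :
    121 / 400 * (om + 2) ^ 2 ≤ 2 * om ^ 2 * ((om + 2) ^ 2 - 1) := by
  have h3 : 0 ≤ (-(54 / 100) - om) * (om + 88 / 100) :=
    mul_nonneg (by linarith) (by linarith)
  have h4 : 0 ≤ 258 / 100 - 516 / 100 * om - 2 * om ^ 2 := by
    have h0 := pow_le_pow_left₀ (by linarith : (0 : ℝ) ≤ -om)
      (by linarith : -om ≤ 1) 2
    rw [neg_sq, one_pow] at h0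
    linarith
  have h5 := mul_nonneg h3 h4
  nlinarith [h5, h3]

/-- the numerical part -/
lemma num {p g om s e : ℝ} (hs : s = om + 2) (hs1 : 1 ≤ s)
    (hz0 : 0 ≤ 27 / 10 * (p - om ^ 2)) (he : e = exp (-(27 / 10 * (p - om ^ 2))))
    (hp : p ≤ 1301 / 1000) (hb : (27 / 200) ^ 2 * g ^ 2 + 9 / 5 * p ≤ 64 / 25)
    (hc : p ≤ 21 / 50 → 11 * (11 / 20 - p) ≤ g)
    (hd : 77 / 100 ≤ p → p ≤ 113 / 100 → 41 / 10 ≤ g) :
    s ^ 2 ≤ 988 / 100 ∧
    0 ≤ (27 / 200) ^ 2 * g ^ 2 + 2 * (om ^ 2 * (1 - s⁻¹ ^ 2)) ∧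
    (27 / 200) ^ 2 * g ^ 2 + 2 * (om ^ 2 * (1 - s⁻¹ ^ 2)) ≤ 64 / 25 ∧
    (e ≤ 3 / 4 ∨ 121 / 400 ≤ (27 / 200) ^ 2 * g ^ 2 + 2 * (om ^ 2 * (1 - s⁻¹ ^ 2))) := by
  have hs0 : 0 < s := by linarith
  have hpo : om ^ 2 ≤ p := by linarith
  have hom1 : om ≤ 1141 / 1000 := by
    by_contra h
    push Not at h
    nlinarith
  have hs2 : s ^ 2 ≤ 988 / 100 := by
    have : s ≤ 3141 / 1000 := by linarith
    nlinarith
  have hi : s⁻¹ ^ 2 = 1 / s ^ 2 := by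
    rw [inv_pow, one_div]
  have hi1 : s⁻¹ ^ 2 ≤ 1 := by
    rw [hi, div_le_one (by positivity)]
    nlinarith
  have hi2 : 1 / 10 ≤ s⁻¹ ^ 2 := by
    rw [hi]
    exact one_div_le_one_div_of_le (by positivity) (by linarith)
  have hom2 : 0 ≤ om ^ 2 := sq_nonneg om
  have hpos : 0 ≤ om ^ 2 * (1 - s⁻¹ ^ 2) := mul_nonneg hom2 (by linarith)
  refine ⟨hs2, by positivity, ?_, ?_⟩
  · have h1 : om ^ 2 * (1 - s⁻¹ ^ 2) ≤ om ^ 2 * (9 / 10) :=
      mul_le_mul_of_nonneg_left (by linarith) hom2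
    linarith
  · by_cases h34 : e ≤ 3 / 4
    · exact Or.inl h34
    right
    push Not at h34
    -- z < 1/3
    have hz1 : 27 / 10 * (p - om ^ 2) < 1 / 3 := by
      set z := 27 / 10 * (p - om ^ 2) with hzdef
      have h1 : z + 1 ≤ exp z := add_one_le_exp z
      have h2 : e * exp z = 1 := by
        rw [he, ← exp_add]
        simp
      have h3 : 0 < exp z := exp_pos z
      nlinarith
    have hp1 : p < om ^ 2 + 10 / 81 := by linarith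
    have hlow : ∀ c : ℝ, 0 < c → c ≤ s ^ 2 → 1 - 1 / c ≤ 1 - s⁻¹ ^ 2 := by
      intro c hc0 hcs
      rw [hi]
      have := one_div_le_one_div_of_le hc0 hcs
      linarith
    have hg2 : 0 ≤ (27 / 200) ^ 2 * g ^ 2 := by positivity
    rcases le_total (45 / 100) om with hA | hA
    · -- case A
      have h1 := hlow (60025 / 10000) (by norm_num) (by nlinarith)
      have h2 : (2025 / 10000 : ℝ) ≤ om ^ 2 := by nlinarith
      have h3 : (2025 / 10000 : ℝ) * (1 - 1 / (60025 / 10000)) ≤ om ^ 2 * (1 - s⁻¹ ^ 2) :=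
        mul_le_mul h2 h1 (by norm_num) hom2
      have h4 : (168 / 1000 : ℝ) ≤ om ^ 2 * (1 - s⁻¹ ^ 2) := le_trans (by norm_num) h3
      linarith
    rcases le_total (-(54 / 100)) om with hB | hB
    · -- case B
      have h1 : om ^ 2 ≤ 2916 / 10000 := by nlinarith
      have h2 : p ≤ 21 / 50 := by linarith
      have h3 := hc h2
      have h4 : 11 * (4265 / 10000 - om ^ 2) ≤ g := by linarith
      have h5 : 0 ≤ 11 * (4265 / 10000 - om ^ 2) := by linarith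
      have h6 : (11 * (4265 / 10000 - om ^ 2)) ^ 2 ≤ g ^ 2 := pow_le_pow_left₀ h5 h4 2
      have h7 := hlow (21316 / 10000) (by norm_num) (by nlinarith)
      have h8 : om ^ 2 * (1 - 1 / (21316 / 10000)) ≤ om ^ 2 * (1 - s⁻¹ ^ 2) :=
        mul_le_mul_of_nonneg_left h7 hom2
      have h9 : om ^ 2 * (53 / 100) ≤ om ^ 2 * (1 - 1 / (21316 / 10000)) :=
        mul_le_mul_of_nonneg_left (by norm_num) hom2
      nlinarith [sq_nonneg (om ^ 2 - 186 / 1000)]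
    rcases le_total (-(88 / 100)) om with hC | hC
    · -- case C
      have hs2p : 0 < s ^ 2 := by positivity
      have h1 : 121 / 400 ≤ 2 * (om ^ 2 * (1 - s⁻¹ ^ 2)) := by
        rw [hi]
        have h2 : 2 * (om ^ 2 * (1 - 1 / s ^ 2)) = 2 * om ^ 2 * (s ^ 2 - 1) / s ^ 2 := by
          field_simp
        rw [h2, le_div_iff₀ hs2p, hs]
        exact caseC hB hC
      linarith
    · -- case D
      have hl : (88 / 100 : ℝ) ^ 2 ≤ om ^ 2 := by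
        have h0 := pow_le_pow_left₀ (by norm_num : (0 : ℝ) ≤ 88 / 100)
          (by linarith : (88 / 100 : ℝ) ≤ -om) 2
        rwa [neg_sq] at h0
      have hu : om ^ 2 ≤ 1 := by
        have h0 := pow_le_pow_left₀ (by linarith : (0 : ℝ) ≤ -om)
          (by linarith : -om ≤ 1) 2
        rwa [neg_sq, one_pow] at h0
      have h1 : 77 / 100 ≤ p := by linarith
      have h2 : p ≤ 113 / 100 := by linarith
      have h3 := hd h1 h2
      have h4 : (41 / 10 : ℝ) ^ 2 ≤ g ^ 2 := pow_le_pow_left₀ (by norm_num) h3 2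
      linarith

/-- Cauchy-Schwarz -/
lemma cs {a b A B x y : ℝ} (ha : |a| ≤ A * x) (hb : |b| ≤ B * y) :
    (a - b) ^ 2 ≤ (A ^ 2 + B ^ 2) * (x ^ 2 + y ^ 2) := by
  have h1 : |a - b| ≤ A * x + B * y := (abs_sub a b).trans (add_le_add ha hb)
  have h2 : (a - b) ^ 2 ≤ (A * x + B * y) ^ 2 := by
    rw [← sq_abs (a - b)]
    exact pow_le_pow_left₀ (abs_nonneg _) h1 2
  have h3 := sq_nonneg (A * y - B * x)
  linarith

theorem t (h1 : G_ELEM) (h2 : G_QF) : G_PHYS := by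
  rintro q r P ⟨hP, hPd⟩
  obtain ⟨hQ, hQd⟩ := h2 r
  have hzc : ContDiff ℝ ∞ (zz r P) := by
    unfold zz
    exact contDiff_const.mul ((hP.comp contDiff_fst).sub (hQ.comp contDiff_snd))
  have hPhi : ContDiff ℝ ∞ (Phi r P) := by
    have h3 : Phi r P = fun w => 1 / 100 * (1 - exp (-(zz r P w))) := rfl
    rw [h3]
    exact contDiff_const.mul (contDiff_const.sub hzc.neg.exp)
  refine ⟨hPhi, fun w hw => ?_⟩
  obtain ⟨e, he⟩ : ∃ e, e = exp (-(zz r P w)) := ⟨_, rfl⟩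
  have he0 : 0 < e := by rw [he]; exact exp_pos _
  have hPw : Phi r P w = 1 / 100 * (1 - e) := by rw [he]; exact Phi_eq w
  have he1 : e ≤ 1 := by
    rw [hPw] at hw
    linarith
  have hz0 : 0 ≤ zz r P w := by
    rw [he, exp_le_one_iff] at he1
    linarith
  have hQ0 : 0 ≤ QY w.2 := by
    unfold QY
    positivity
  have hP0 : 0 ≤ P w.1 := by
    unfold zz at hz0
    linarith
  obtain ⟨hp, hp2, hb, hc, hd⟩ := hPd w.1 hP0
  obtain ⟨hs1, hY, hQn, hQ2⟩ := hQd w.2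
  obtain ⟨hs2, hG0, hG1, hG2⟩ := num (p := P w.1) (g := ‖fderiv ℝ P w.1‖) (om := sY w.2 - 2)
    (s := sY w.2) (e := e) (by ring) hs1 hz0 he hp hb hc hd
  obtain ⟨G, hG⟩ : ∃ G, G = (27 / 200) ^ 2 * ‖fderiv ℝ P w.1‖ ^ 2 +
    2 * ((sY w.2 - 2) ^ 2 * (1 - (sY w.2)⁻¹ ^ 2)) := ⟨_, rfl⟩
  rw [← hG] at hG0 hG1 hG2
  have hG' : G = (27 / 200) ^ 2 * (‖fderiv ℝ P w.1‖ ^ 2 + ‖fderiv ℝ (QY (r := r)) w.2‖ ^ 2) := by
    rw [hG, hQn]
    ring
  have hDpos : 0 < e ^ 2 * G + 1 - e := by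
    rcases hG2 with h3 | h3
    · have : 0 ≤ e ^ 2 * G := by positivity
      linarith
    · have h4 : 0 < e ^ 2 * G := by positivity
      linarith
  refine ⟨by rw [hY]; linarith, by rw [hPw]; linarith,
    (27 / 1000 * e) • (InnerProductSpace.toDual ℝ (E q)).symm (fderiv ℝ P w.1),
    (-(27 / 1000 * e)) • (InnerProductSpace.toDual ℝ (E r)).symm (fderiv ℝ (QY (r := r)) w.2),
    ?_, ?_⟩
  · intro ξ
    rw [D1 hP hQ w ξ, ← he, real_inner_smul_left, real_inner_smul_left,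
      InnerProductSpace.toDual_symm_apply, InnerProductSpace.toDual_symm_apply]
    ring
  have hN : ‖(27 / 1000 * e) • (InnerProductSpace.toDual ℝ (E q)).symm (fderiv ℝ P w.1)‖ ^ 2 +
      ‖(-(27 / 1000 * e)) • (InnerProductSpace.toDual ℝ (E r)).symm
        (fderiv ℝ (QY (r := r)) w.2)‖ ^ 2 + 4 * Phi r P w = (e ^ 2 * G + 1 - e) / 25 := by
    rw [norm_smul, norm_smul, LinearIsometryEquiv.norm_map, LinearIsometryEquiv.norm_map,
      mul_pow, mul_pow, norm_neg, Real.norm_eq_abs, sq_abs, hPw, hG']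
    ring
  rw [hN]
  refine ⟨by positivity, ?_⟩
  intro ξ t ht hyp
  have hsq : √((e ^ 2 * G + 1 - e) / 25) = √(e ^ 2 * G + 1 - e) / 5 := by
    rw [Real.sqrt_div hDpos.le, show (25 : ℝ) = 5 ^ 2 by norm_num,
      Real.sqrt_sq (by norm_num : (0 : ℝ) ≤ 5)]
  rw [hsq, D2 hP hQ hPhi w ξ, ← he]
  obtain ⟨a, ha⟩ : ∃ a, a = fderiv ℝ P w.1 ξ.1 := ⟨_, rfl⟩
  obtain ⟨b, hb'⟩ : ∃ b, b = fderiv ℝ (QY (r := r)) w.2 ξ.2 := ⟨_, rfl⟩
  have ha1 : |a| ≤ ‖fderiv ℝ P w.1‖ * ‖ξ.1‖ := by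
    rw [ha]
    exact (fderiv ℝ P w.1).le_opNorm ξ.1
  have hb1 : |b| ≤ ‖fderiv ℝ (QY (r := r)) w.2‖ * ‖ξ.2‖ := by
    rw [hb']
    exact (fderiv ℝ (QY (r := r)) w.2).le_opNorm ξ.2
  have hcs := cs ha1 hb1
  rw [D1 hP hQ w ξ, ← he, ← ha, ← hb', hPw] at hyp
  rw [← ha, ← hb']
  have hA := hp2 ξ.1
  have hB := hQ2 ξ.2
  obtain ⟨A, hA'⟩ : ∃ A, A = fderiv ℝ (fderiv ℝ P) w.1 ξ.1 ξ.1 := ⟨_, rfl⟩
  obtain ⟨B, hB'⟩ : ∃ B, B = fderiv ℝ (fderiv ℝ (QY (r := r))) w.2 ξ.2 ξ.2 := ⟨_, rfl⟩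
  rw [← hA'] at hA ⊢
  rw [← hB'] at hB ⊢
  have hx1 : 0 ≤ ‖ξ.1‖ ^ 2 := by positivity
  have hx2 : 0 ≤ ‖ξ.2‖ ^ 2 := by positivity
  have hel := h1 e G (‖ξ.1‖ ^ 2 + ‖ξ.2‖ ^ 2) t ((27 / 200 * (a - b)) ^ 2) he0 he1 hG0 hG1
    (by positivity) ht (by positivity)
    (by
      rw [hG', mul_pow, mul_assoc]
      exact mul_le_mul_of_nonneg_left hcs (by positivity))
    (by
      have h3 : (e / 100 * (27 / 10 * (a - b))) ^ 2 = 1 / 25 * (e ^ 2 * (27 / 200 * (a - b)) ^ 2) := by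
        ring
      rw [h3] at hyp
      linarith) hG2
  have hfin : |2 * t - e / 100 * (27 / 10 * (A - B) - (27 / 10 * (a - b)) ^ 2)| ≤
      2 * t + 4 * e * (27 / 200 * (a - b)) ^ 2 + 22 / 10 * e * (‖ξ.1‖ ^ 2 + ‖ξ.2‖ ^ 2) := by
    have hAB : |A - B| ≤ 80 * ‖ξ.1‖ ^ 2 + 40000 / 729 * ‖ξ.2‖ ^ 2 :=
      (abs_sub A B).trans (add_le_add hA hB)
    have hAB2 : e * |A - B| ≤ e * (80 * ‖ξ.1‖ ^ 2 + 40000 / 729 * ‖ξ.2‖ ^ 2) :=
      mul_le_mul_of_nonneg_left hAB he0.le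
    have h5 : 2 * t - e / 100 * (27 / 10 * (A - B) - (27 / 10 * (a - b)) ^ 2) =
        2 * t + 4 * e * (27 / 200 * (a - b)) ^ 2 - 27 / 1000 * (e * (A - B)) := by
      ring
    have h6 : |e * (A - B)| = e * |A - B| := by
      rw [abs_mul, abs_of_pos he0]
    have h7 : 0 ≤ 4 * e * (27 / 200 * (a - b)) ^ 2 := by positivity
    have h8 : 0 ≤ e * ‖ξ.1‖ ^ 2 := by positivity
    have h9 : 0 ≤ e * ‖ξ.2‖ ^ 2 := by positivity
    rw [h5]
    refine (abs_sub _ _).trans ?_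
    rw [abs_of_nonneg (by positivity), abs_mul, h6, abs_of_pos (by norm_num : (0 : ℝ) < 27 / 1000)]
    linarith
  refine hfin.trans ?_
  linarith

end Pool.Agent.Helper66.BD.PHYS
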